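import Pool.Agent.helper44.EX.Spec

/-!
# ex:STR The rotation lemma
-/

set_option autoImplicit false

open Complex Metric Set Filter Topology MeasureTheory Pool.Agent.helper98.ILF

noncomputable section

namespace EX

theorem STR_ball (x : ℂ) (s : ℝ) (hs : 0 < s) : ∫ _z in ball x s, (1 : ℝ) = Real.pi * s ^ 2 := by
  rw [setIntegral_const, smul_eq_mul, mul_one, Measure.real, Complex.volume_ball]
  rw [ENNReal.toReal_mul, ENNReal.toReal_pow, ENNReal.toReal_ofReal hs.le]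
  rw [mul_comm]
  rfl

theorem STR (hITR : ITR_stmt) (hROT : ROT_stmt) (hSYM : SYM_stmt) (hSIV : SIV_stmt)
    (hAVG : AVG_stmt) (hDEN : DEN_stmt) (hINJ : INJ_stmt) (hKO1 : V3.KO1_stmt) : STR_stmt := by
  intro n c μ hn hμ
  obtain ⟨hmeas, hnorm, -, hsub, hinv⟩ := hμ
  have hle : ∀ z, ‖μ z‖ ≤ 1 := by
    intro z
    by_cases h : μ z = 0
    · rw [h, norm_zero]; exact zero_le_one
    · exact (hnorm z h).le
  have hn0 : n ≠ 0 := by omega
  obtain ⟨ω, hω⟩ : ∃ ω : ℂ, IsPrimitiveRoot ω n := ⟨_, Complex.isPrimitiveRoot_exp n hn0⟩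
  have hωn : ω ^ n = 1 := hω.pow_eq_one
  have hω1 : ‖ω‖ = 1 := hω.norm'_eq_one hn0
  have hω2 : ω ^ 2 ≠ 1 := hω.pow_ne_one_of_pos_of_lt two_ne_zero (by omega)
  have hκ : 0 < ‖1 - ω ^ 2‖ := by
    rw [norm_pos_iff, sub_ne_zero]
    exact hω2.symm
  set κ := ‖1 - ω ^ 2‖ with hκdef
  obtain ⟨C, hC, hA⟩ := hAVG
  obtain ⟨C₁, hC₁, hK1⟩ := hKO1
  have hrot := hROT n c ω μ (by omega) hωn hinv
  filter_upwards [hDEN μ hmeas hle] with x hx hμx q hq
  have hxJ : x ∈ juliaSet (ff n c) := hsub hμx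
  have hμ1 : ‖μ x‖ = 1 := hnorm x hμx
  -- nearby points of the Julia set
  have hacc : ∀ ρ > (0 : ℝ), ∃ β ∈ juliaSet (ff n c), β ≠ x ∧ β ∈ ball x ρ := by
    intro ρ hρ
    by_contra hcon
    push Not at hcon
    obtain ⟨δ, hδ, hδ2⟩ := hx 0 1 one_pos
    have hs : 0 < min (δ / 2) ρ := by positivity
    have h1 := hδ2 x (min (δ / 2) ρ) hs (lt_of_le_of_lt (min_le_left _ _) (by linarith)) (by simp)
    have h2 : ∫ z in ball x (min (δ / 2) ρ), ‖μ z - μ x‖
        = ∫ _z in ball x (min (δ / 2) ρ), (1 : ℝ) := by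
      apply setIntegral_congr_ae measurableSet_ball
      have h3 : ∀ᵐ z : ℂ, z ≠ x := by
        rw [ae_iff]
        simp
      filter_upwards [h3] with z hz hzb
      have h4 : μ z = 0 := by
        by_contra h5
        exact hcon z (hsub h5) hz (ball_subset_ball (min_le_right _ _) hzb)
      rw [h4, zero_sub, norm_neg, hμ1]
    rw [h2, STR_ball x _ hs, one_mul] at h1
    have h6 : 0 < (min (δ / 2) ρ) ^ 2 := by positivity
    nlinarith [Real.pi_gt_three]
  -- constants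
  obtain ⟨K, hK, hS⟩ := hSYM (max q 0) (min (1 / 4) (κ / (4 * C))) (le_max_right _ _)
    (max_lt hq one_pos) (by positivity)
  obtain ⟨δ, hδ, hδ2⟩ := hx K (κ / (16 * C)) (by positivity)
  have hK0 : 0 < K := lt_of_lt_of_le one_pos hK
  have hC₁0 : 0 < C₁ := lt_of_lt_of_le one_pos hC₁
  obtain ⟨T, hT⟩ := hINJ n c x (by omega) hxJ hacc (δ / (4 * K * C₁)) (by positivity)
  refine ⟨T, ?_⟩
  intro t ht Φ g b hΦd hΦi hgd hg hg0 hb hΦb
  have hgi : InjOn g (ball 0 1) := by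
    intro z hz w hw hzw
    apply hΦi hz hw
    rw [← hg z hz, ← hg w hw, hzw]
  have hsubs := hK1 g 0 1 one_pos hgd hgi
  rw [hg0, one_mul] at hsubs
  have hsmall : ‖deriv g 0‖ < δ / (4 * K) := by
    by_contra hcon
    push Not at hcon
    apply hT t ht
    have h1 : δ / (4 * K * C₁) ≤ ‖deriv g 0‖ / C₁ := by
      rw [← div_div]
      exact div_le_div_of_nonneg_right hcon hC₁0.le
    intro z hz w hw hzw
    obtain ⟨z', hz', rfl⟩ := hsubs (ball_subset_ball h1 hz)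
    obtain ⟨w', hw', rfl⟩ := hsubs (ball_subset_ball h1 hw)
    rw [hg z' hz', hg w' hw'] at hzw
    rw [hΦi hz' hw' hzw]
  have hF : Differentiable ℂ ((ff n c)^[t]) := by
    apply Differentiable.iterate
    unfold ff
    fun_prop
  obtain ⟨s, S, hs, hgb, hsK, hSd, hSi, hSm, hSf, hSF⟩ := hS ((ff n c)^[t]) Φ g ω b hF hω1 hΦd hΦi
    hgd hg (hb.trans (le_max_left _ _)) hΦb
  have hinvt := hITR n c μ (by omega) hinv t
  have hSinv := hSIV μ ((ff n c)^[t]) S ω (g b) s hs hω1 hF hinvt hrot hSd hSi hSm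
    (fun z hz => (hSf z hz).1) hSF
  have hav := hA μ S ω (μ x) (g b) s (min (1 / 4) (κ / (4 * C))) hmeas hle hω1 hμ1 hs
    (by positivity) (min_le_left _ _) hSd hSi hSm (fun z hz => (hSf z hz).2) hSinv
  rw [hg0] at hgb
  have h2s : 2 * s < δ := by
    have h1 : K * ‖deriv g 0‖ < K * (δ / (4 * K)) := mul_lt_mul_of_pos_left hsmall hK0
    have h2 : K * (δ / (4 * K)) = δ / 4 := by
      field_simp
    linarith
  have hden := hδ2 (g b) (2 * s) (by linarith) h2s (by nlinarith)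
  have h1 : C * (∫ z in ball (g b) (2 * s), ‖μ z - μ x‖) ≤ κ / 4 * s ^ 2 := by
    have h2 := mul_le_mul_of_nonneg_left hden hC.le
    have h3 : C * (κ / (16 * C) * (2 * s) ^ 2) = κ / 4 * s ^ 2 := by
      field_simp
      ring
    linarith
  have h2 : C * min (1 / 4) (κ / (4 * C)) * s ^ 2 ≤ κ / 4 * s ^ 2 := by
    apply mul_le_mul_of_nonneg_right _ (by positivity)
    have h3 := mul_le_mul_of_nonneg_left (min_le_right (1 / 4) (κ / (4 * C))) hC.le
    have h4 : C * (κ / (4 * C)) = κ / 4 := by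
      field_simp
    linarith
  have h3 : 0 < κ * s ^ 2 := by positivity
  linarith

end EX

end
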